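import Mathlib

/-!
Project CF: field theory for the subfield of general type.
-/

set_option autoImplicit false
set_option linter.overlappingInstances false
set_option linter.unusedSectionVars false

open IntermediateField Polynomial

namespace Pool.Agent.Y98.CF

section

variable {k K L : Type} [Field k] [Field K] [Field L] [Algebra k K]

theorem alg_mono {A B : IntermediateField k K} (h : A ≤ B) {z : K} (hz : IsAlgebraic A z) :
    IsAlgebraic B z := by
  let _ : Algebra A B := (IntermediateField.inclusion h).toRingHom.toAlgebra
  have t1 : IsScalarTower A B K := IsScalarTower.of_algebraMap_eq fun _ => rfl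
  exact hz.extendScalars (algebraMap A B).injective

/-- transitivity -/
theorem alg_trans {A B : IntermediateField k K} (h : ∀ x ∈ B, IsAlgebraic A x) {z : K} (hz : IsAlgebraic B z) :
    IsAlgebraic A z := by
  let C : IntermediateField k K := (algebraicClosure A K).restrictScalars k
  have hBC : B ≤ C := fun x hx => by
    change x ∈ algebraicClosure A K
    rw [mem_algebraicClosure_iff]
    exact h x hx
  have h1 : IsAlgebraic C z := alg_mono hBC hz
  have h2 : IsAlgebraic (algebraicClosure A K) z := h1
  exact h2.restrictScalars A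

variable [Algebra k L] [Algebra L K] [IsScalarTower k L K]

/-- an intermediate field which comes from `L` embeds in `L` -/
theorem exists_emb (M : IntermediateField k K) (hM : M ≤ (IsScalarTower.toAlgHom k L K).fieldRange) :
    ∃ ψ : M →ₐ[k] L, ∀ x : M, algebraMap L K (ψ x) = x := by
  let R : Subalgebra k K := (IsScalarTower.toAlgHom k L K).range
  let f' : M →ₐ[k] R := M.val.codRestrict R fun x => hM x.2
  let e : L ≃ₐ[k] R := AlgEquiv.ofInjectiveField (IsScalarTower.toAlgHom k L K)
  refine ⟨(e.symm : R →ₐ[k] L).comp f', fun x => ?_⟩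
  have h1 : e (e.symm (f' x)) = f' x := e.apply_symm_apply _
  exact congrArg (fun y : R => (y : K)) h1

/-- a polynomial over `K` with coefficients in an intermediate field -/
theorem exists_lift (M : IntermediateField k K) {p : K[X]} (hp : p.Monic) (h : ∀ i, p.coeff i ∈ M) :
    ∃ q : M[X], q.Monic ∧ q.map (algebraMap M K) = p ∧ q.natDegree = p.natDegree := by
  have h1 : p ∈ Polynomial.lifts (algebraMap M K) := by
    rw [Polynomial.lifts_iff_coeff_lifts]
    intro i
    exact ⟨⟨_, h i⟩, rfl⟩
  obtain ⟨q, hq, hd, hm⟩ := Polynomial.lifts_and_natDegree_eq_and_monic h1 hp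
  exact ⟨q, hm, hq, hd⟩

/-- the degrees over the intersection -/
theorem deg_le [FiniteDimensional L K] {C M : IntermediateField k K} (hC : ∀ x : K, IsAlgebraic C x → x ∈ C)
    (hML : M ≤ (IsScalarTower.toAlgHom k L K).fieldRange) (hMC : M ≤ C)
    (hM : ∀ x, x ∈ (IsScalarTower.toAlgHom k L K).fieldRange → x ∈ C → x ∈ M) {z : K} (hz : IsAlgebraic M z) :
    (minpoly M z).natDegree ≤ Module.finrank L K := by
  obtain ⟨ψ, hψ⟩ := exists_emb M hML
  have hint : IsIntegral M z := hz.isIntegral
  have hcomp : (algebraMap L K).comp ψ.toRingHom = algebraMap M K := RingHom.ext hψ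
  have hzL : IsIntegral L z := Algebra.IsIntegral.isIntegral z
  set g : K[X] := (minpoly L z).map (algebraMap L K) with hg
  have hgm : g.Monic := (minpoly.monic hzL).map _
  have hdvd : g ∣ (minpoly M z).map (algebraMap M K) := by
    have h1 : minpoly L z ∣ (minpoly M z).map ψ.toRingHom := by
      apply minpoly.dvd
      rw [Polynomial.aeval_def, Polynomial.eval₂_map, hcomp]
      exact minpoly.aeval M z
    have h2 := Polynomial.map_dvd (algebraMap L K) h1
    rwa [Polynomial.map_map, hcomp] at h2
  have h3 := integralClosure.mem_lifts_of_monic_of_dvd_map K (minpoly.monic hint) hgm hdvd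
  rw [Polynomial.lifts_iff_coeff_lifts] at h3
  have h4 : ∀ i, g.coeff i ∈ M := by
    intro i
    obtain ⟨y, hy⟩ := h3 i
    refine hM _ ⟨(minpoly L z).coeff i, by rw [hg, Polynomial.coeff_map]; rfl⟩ ?_
    have h5 : IsIntegral M (g.coeff i) := by
      rw [← hy]
      exact y.2
    exact hC _ (alg_mono hMC h5.isAlgebraic)
  obtain ⟨q, hqm, hq, hqd⟩ := exists_lift M hgm h4
  have h6 : Polynomial.aeval z q = 0 := by
    rw [Polynomial.aeval_def, ← Polynomial.eval_map, hq, hg, Polynomial.eval_map]
    exact minpoly.aeval L z
  have h7 : (minpoly M z).natDegree ≤ q.natDegree :=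
    Polynomial.natDegree_le_natDegree (minpoly.min M z hqm h6)
  rw [hqd, hg, Polynomial.natDegree_map] at h7
  exact h7.trans (minpoly.natDegree_le z)

/-- elements with conjugates in the intersection are algebraic over it -/
theorem alg_of_coeff [FiniteDimensional L K] {M : IntermediateField k K} {x : K}
    (h : ∀ i, algebraMap L K ((minpoly L x).coeff i) ∈ M) : IsAlgebraic M x := by
  have hxL : IsIntegral L x := Algebra.IsIntegral.isIntegral x
  obtain ⟨q, hqm, hq, hqd⟩ := exists_lift M (p := (minpoly L x).map (algebraMap L K))
    ((minpoly.monic hxL).map _) (fun i => by rw [Polynomial.coeff_map]; exact h i)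
  refine ⟨q, hqm.ne_zero, ?_⟩
  rw [Polynomial.aeval_def, ← Polynomial.eval_map, hq, Polynomial.eval_map]
  exact minpoly.aeval L x

end

section

variable {M K : Type} [Field M] [CharZero M] [Field K] [Algebra M K]

/-- the degree of a finite extension is the degree of an element -/
theorem finrank_adjoin_le {S : Set K} (hS : S.Finite) (hint : ∀ x ∈ S, IsIntegral M x) {r : ℕ}
    (hr : ∀ x ∈ IntermediateField.adjoin M S, (minpoly M x).natDegree ≤ r) :
    FiniteDimensional M (IntermediateField.adjoin M S) ∧
      Module.finrank M (IntermediateField.adjoin M S) ≤ r := by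
  have hfin : Finite S := hS
  have hfd : FiniteDimensional M (IntermediateField.adjoin M S) :=
    IntermediateField.finiteDimensional_adjoin hint
  refine ⟨hfd, ?_⟩
  obtain ⟨α, hα⟩ := Field.exists_primitive_element M (IntermediateField.adjoin M S)
  rw [Field.primitive_element_iff_minpoly_natDegree_eq] at hα
  rw [← hα]
  have h1 : minpoly M (α : K) = minpoly M α :=
    minpoly.algebraMap_eq (B' := K) (algebraMap (IntermediateField.adjoin M S) K).injective α
  rw [← h1]
  exact hr _ α.2

end

end Pool.Agent.Y98.CF
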