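import Pool.Agent.TH466.QT.Rat
import Pool.Agent.Y98.CF.Fld

/-!
Project CF: the subfield of general type.
-/

set_option autoImplicit false
set_option linter.overlappingInstances false
set_option linter.unusedSectionVars false

open FF IntermediateField

namespace Pool.Agent.Y98.CF

open Pool.Agent.W602.GT Pool.Agent.TH466.QG Pool.Agent.TH466.QT

/-- the subfield of general type -/
theorem sub_core (k : Type) [Field k] [CharZero k] [IsAlgClosed k] (K L : Type) [Field K]
    [Field L] [Algebra k K] [Algebra k L] [Algebra L K] [IsScalarTower k L K]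
    [FiniteDimensional L K] (s N r w b : ℕ) (hN1 : 1 ≤ N) (hr : Module.finrank L K ≤ r)
    (hw : Algebra.trdeg k K = w) (hb : Algebra.trdeg k (E0 k K s N) = b) (hb1 : 1 ≤ b)
    (hN : r * (w * ((s + 4) * ((s - 1) * (s - 2) / 2))) ≤ N)
    (hcoef : ∀ x ∈ cr k K s N, ∀ i, algebraMap L K ((minpoly L x).coeff i) ∈ E0 k K s N) :
    b ≤ w ∧ ∃ M : IntermediateField k L, GeneralType k M b := by
  classical
  have hbw : b ≤ w := by
    have h1 := trdeg_le_of_injective (E0 k K s N).val (E0 k K s N).val.toRingHom.injective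
    rw [hb, hw] at h1
    exact_mod_cast h1
  refine ⟨hbw, ?_⟩
  obtain ⟨m, d, V, c, a, a', hms, hNd, hV0, hc, hsum, hlin, hbas⟩ := hasCirc_E0 (K := K) hN1 hb
  let M : IntermediateField k K := (IsScalarTower.toAlgHom k L K).fieldRange ⊓ E0 k K s N
  have hMC : M ≤ E0 k K s N := inf_le_right
  have hML : M ≤ (IsScalarTower.toAlgHom k L K).fieldRange := inf_le_left
  have hA : ∀ x ∈ E0 k K s N, IsAlgebraic (IntermediateField.adjoin k (cr k K s N)) x :=
    fun x hx => mem_E0.1 hx
  have hcl : ∀ x : K, IsAlgebraic (E0 k K s N) x → x ∈ E0 k K s N :=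
    fun x hx => mem_E0.2 (alg_trans hA hx)
  -- the field of the circuits is algebraic over the intersection
  have hcrM : ∀ x ∈ cr k K s N, IsAlgebraic M x := fun x hx =>
    alg_of_coeff (L := L) fun i => ⟨⟨_, rfl⟩, hcoef x hx i⟩
  have hadj : ∀ x ∈ IntermediateField.adjoin k (cr k K s N), IsAlgebraic M x := by
    intro x hx
    have h1 : IntermediateField.adjoin k (cr k K s N) ≤ (algebraicClosure M K).restrictScalars k := by
      rw [IntermediateField.adjoin_le_iff]
      intro y hy
      change y ∈ algebraicClosure M K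
      rw [mem_algebraicClosure_iff]
      exact hcrM y hy
    have h2 : x ∈ algebraicClosure M K := h1 hx
    exact mem_algebraicClosure_iff.1 h2
  have hCM : ∀ x ∈ E0 k K s N, IsAlgebraic M x := fun x hx => alg_trans hadj (hA x hx)
  have hdeg : ∀ x ∈ E0 k K s N, (minpoly M x).natDegree ≤ r := fun x hx =>
    (deg_le (L := L) hcl hML hMC (fun y h1 h2 => ⟨h1, h2⟩) (hCM x hx)).trans hr
  have hchar : CharZero M := charZero_of_injective_algebraMap (algebraMap k M).injective
  -- the field generated by the circuits over the intersection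
  let S : Set K := Set.range fun q : (Σ i, Fin (m i + 1)) => (V q.1 q.2 : K)
  have hS : S.Finite := Set.finite_range _
  have hSC : ∀ x ∈ S, x ∈ E0 k K s N := by
    rintro _ ⟨⟨i, j⟩, rfl⟩
    exact (V i j).2
  let E1 : IntermediateField M K := IntermediateField.adjoin M S
  have hE : ∀ x ∈ E1, x ∈ E0 k K s N := by
    intro x hx
    have h1 : E1 ≤ IntermediateField.extendScalars hMC := by
      rw [IntermediateField.adjoin_le_iff]
      exact hSC
    exact h1 hx
  obtain ⟨hfd, hfr⟩ := finrank_adjoin_le (M := M) hS (fun x hx => (hCM x (hSC x hx)).isIntegral) (r := r)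
    (fun x hx => hdeg x (hE x hx))
  have hVE : ∀ i j, (V i j : K) ∈ E1 := fun i j =>
    IntermediateField.subset_adjoin M _ ⟨⟨i, j⟩, rfl⟩
  let V' : ∀ i, Fin (m i + 1) → E1 := fun i j => ⟨(V i j : K), hVE i j⟩
  let φ : E1 →ₐ[k] E0 k K s N := (E1.val.restrictScalars k).codRestrict (E0 k K s N).toSubalgebra
    (fun x => hE x x.2)
  have hV' : ∀ i, IsCirc k s N (m i) (d i) (V' i) (c i) := fun i =>
    IsCirc.comap φ ⟨hms i, hNd i, hV0 i, hc i, hsum i, hlin i⟩
  have hcirc : HasCirc k s N b E1 := by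
    refine ⟨m, d, V', c, a, a', fun i => (hV' i).ms, fun i => (hV' i).Nd, fun i => (hV' i).hU,
      fun i => (hV' i).hc, fun i => (hV' i).sum, fun i => (hV' i).lin, ?_⟩
    refine IsTranscendenceBasis.of_comp φ φ.toRingHom.injective ?_
    have h1 : (φ ∘ fun i => (c i (a i) • V' i (a i) ^ d i) / (c i (a' i) • V' i (a' i) ^ d i)) =
        fun i => (c i (a i) • V i (a i) ^ d i) / (c i (a' i) • V i (a' i) ^ d i) := by
      funext i
      exact Subtype.ext rfl
    rw [h1]
    exact hbas
  have hgen : GeneralType k M b := by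
    refine general_corr (K := E1) (K' := E1) (L := M) hb1 hcirc hfr (le_trans ?_ hN)
    exact Nat.mul_le_mul_left _ (Nat.mul_le_mul_right _ hbw)
  -- the embedding in `L`
  obtain ⟨ψ, hψ⟩ := exists_emb M hML
  let ψ' : M →ₐ[k] ψ.fieldRange := ψ.codRestrict ψ.fieldRange.toSubalgebra fun x => ⟨x, rfl⟩
  let e : M ≃ₐ[k] ψ.fieldRange := AlgEquiv.ofBijective ψ' ⟨ψ'.toRingHom.injective, by
    rintro ⟨_, x, rfl⟩
    exact ⟨x, rfl⟩⟩
  exact ⟨ψ.fieldRange, general_of_equiv e hgen⟩

end Pool.Agent.Y98.CF
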