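import Pool.Agent.Y221.CF.Stm
import Pool.Agent.Y98.CF.SubCore

/-!
Project CF: the subfield of general type, the statement of the job.
-/

set_option autoImplicit false

namespace Pool.Agent.Y98.CF

/-- job SUB -/
theorem sub : Pool.Agent.Y221.CF.StmSub := by
  intro k _ _ _ K L _ _ _ _ _ _ _ s N r w b hN1 hr hw hb hb1 hN hcoef
  exact sub_core k K L s N r w b hN1 hr hw hb hb1 hN hcoef

end Pool.Agent.Y98.CF
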